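import Pool.Agent.J6H55.FM.Stm
import Pool.Agent.J6H20.FM.No2
import Pool.Agent.Q96.LS.Main

/-!
# The degree of the curves in the fibres: noetherian induction (module FM-NOE)
-/

set_option autoImplicit false
set_option linter.overlappingInstances false

namespace Pool.Agent.J6H14.FM

open FF Pool.Agent.J6H55.FM
open Pool.Agent.J6H20.FM (exists_gen lt_sup vanish_sup)
open Pool.Agent.W602.GT (IsForm val coords)
open Pool.Agent.W603.LV (canDeg)
open Pool.Agent.W603.PV (pht)
open Pool.Agent.Q271.RC (Nonconst)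
open Pool.Agent.Q103.SF (van)

/-- the conclusion is monotonic in the constant -/
theorem concl_mono {M : ℕ} {E : Type} [Field E] [Algebra ℂ E] [IsFF ℂ E] {f : Fin (M + 1) → E}
    (hf : Nonconst f) {A A' : ℕ} (h : A ≤ A')
    (h1 : pht ℂ f ≤ A * canDeg ℂ E ∨ LowDeg A (van f)) :
    pht ℂ f ≤ A' * canDeg ℂ E ∨ LowDeg A' (van f) := by
  rcases h1 with h1 | ⟨E', i1, i2, i3, z, a, b, c, d, e⟩
  · left
    have hpv := Pool.Agent.Q96.LS.pht_pos f hf
    have hc : 0 < canDeg ℂ E := by
      by_contra hcon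
      rw [not_lt] at hcon
      have h7 := mul_nonpos_of_nonneg_of_nonpos (Int.natCast_nonneg A) hcon
      linarith
    refine h1.trans (mul_le_mul_of_nonneg_right ?_ hc.le)
    exact_mod_cast h
  · right
    refine ⟨E', i1, i2, i3, z, a, b, c, d.trans ?_, e⟩
    exact_mod_cast h

/-- module FM-NOE -/
theorem noe : Pool.Agent.J6H55.FM.S_noe := by
  classical
  intro β _ M FF hFF H
  suffices key : ∀ I : Ideal (MvPolynomial (β ⊕ Fin (M + 1)) ℂ), ∃ A : ℕ,
      ∀ (E : Type) [Field E] [Algebra ℂ E] [IsFF ℂ E] (c : β → ℂ) (f : Fin (M + 1) → E),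
        (∀ G ∈ I, rv (cst E c) f G = 0) → Nonconst f → InFibre FF c f →
          pht ℂ f ≤ A * canDeg ℂ E ∨ LowDeg A (van f) by
    obtain ⟨A, hA⟩ := key ⊥
    refine ⟨A, fun E _ _ _ c f hf hc => hA E c f (fun G hG => ?_) hf hc⟩
    rw [Ideal.mem_bot] at hG
    rw [hG]
    exact map_zero _
  intro I
  induction I using WellFoundedGT.induction with
  | ind I ih =>
    have key : ∀ p ∈ I.minimalPrimes, ∃ A : ℕ,
        ∀ (E : Type) [Field E] [Algebra ℂ E] [IsFF ℂ E] (c : β → ℂ) (f : Fin (M + 1) → E),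
          (∀ G ∈ p, rv (cst E c) f G = 0) → Nonconst f → InFibre FF c f →
            pht ℂ f ≤ A * canDeg ℂ E ∨ LowDeg A (van f) := by
      intro p hp
      have hpp : p.IsPrime := hp.1.1
      have hIp : I ≤ p := hp.1.2
      by_cases hX : ∃ j, (MvPolynomial.X (Sum.inr j) : MvPolynomial (β ⊕ Fin (M + 1)) ℂ) ∉ p
      · obtain ⟨L, i1, i2, b, z, hgen, hzp⟩ := exists_gen p hX
        by_cases hFp : ∃ F ∈ FF, F ∉ p
        · obtain ⟨F, hF, hFp⟩ := hFp
          obtain ⟨A, hA⟩ := ih _ (lt_sup hIp hFp)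
          exact ⟨A, fun E _ _ _ c f h0 hf h1 => hA E c f (vanish_sup h0 (h1 F hF)) hf h1⟩
        · push Not at hFp
          obtain ⟨R, A2, hR, hR0, hA2⟩ := H L b z hgen
            (fun F hF => (hzp F (hFF F hF)).2 (hFp F hF))
          have hRp : R ∉ p := fun h => hR0 ((hzp R hR).2 h)
          obtain ⟨A1, hA1⟩ := ih _ (lt_sup hIp hRp)
          refine ⟨max A1 A2, fun E _ _ _ c f h0 hf h1 => ?_⟩
          by_cases hfR : rv (cst E c) f R = 0
          · exact concl_mono hf (le_max_left _ _) (hA1 E c f (vanish_sup h0 hfR) hf h1)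
          · refine concl_mono hf (le_max_right _ _)
              (hA2 E c f ⟨?_, fun G hG hG0 => h0 G ((hzp G hG).1 hG0)⟩ hfR hf)
            intro hf0
            obtain ⟨i, j, hj, -⟩ := hf
            exact hj (congrFun hf0 j)
      · push Not at hX
        refine ⟨0, fun E _ _ _ c f h0 hf h1 => ?_⟩
        obtain ⟨i, j, hj, -⟩ := hf
        have h5 := h0 _ (hX j)
        unfold rv at h5
        rw [MvPolynomial.aeval_X] at h5
        exact absurd h5 hj
    choose! A hA using key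
    have hfin : I.minimalPrimes.Finite := Ideal.finite_minimalPrimes_of_isNoetherianRing _ I
    refine ⟨∑ p ∈ hfin.toFinset, A p, fun E _ _ _ c f h0 hf h1 => ?_⟩
    have hker : (RingHom.ker (MvPolynomial.aeval (Sum.elim (cst E c) f) :
      MvPolynomial (β ⊕ Fin (M + 1)) ℂ →ₐ[ℂ] E)).IsPrime := RingHom.ker_isPrime _
    obtain ⟨p, hp, hpf⟩ := Ideal.exists_minimalPrimes_le
      (I := I) (J := RingHom.ker (MvPolynomial.aeval (Sum.elim (cst E c) f) :
        MvPolynomial (β ⊕ Fin (M + 1)) ℂ →ₐ[ℂ] E))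
      (fun G hG => RingHom.mem_ker.2 (h0 G hG))
    exact concl_mono hf (Finset.single_le_sum (f := A) (fun _ _ => Nat.zero_le _)
      ((Set.Finite.mem_toFinset hfin).2 hp))
      (hA p hp E c f (fun G hG => RingHom.mem_ker.1 (hpf hG)) hf h1)

end Pool.Agent.J6H14.FM
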